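import Mathlib

set_option autoImplicit false

namespace Pool.Agent.H180Z.AK

open Finset Pointwise

/-- the digit set -/
noncomputable def Sg (N : ℕ) : Finset (ℤ × ℤ) :=
  (Finset.Icc (0 : ℤ) N).image (fun p => (p, 0)) ∪ (Finset.Icc (0 : ℤ) N).image (fun q => (0, q))

lemma mem_Sg_left {N : ℕ} {p : ℕ} (h : p ≤ N) : ((p : ℤ), (0 : ℤ)) ∈ Sg N :=
  mem_union_left _ (mem_image.2 ⟨p, mem_Icc.2 ⟨by omega, by omega⟩, rfl⟩)
lemma mem_Sg_right {N : ℕ} {p : ℕ} (h : p ≤ N) : ((0 : ℤ), (p : ℤ)) ∈ Sg N :=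
  mem_union_right _ (mem_image.2 ⟨p, mem_Icc.2 ⟨by omega, by omega⟩, rfl⟩)
lemma mem_Sg {N : ℕ} {s : ℤ × ℤ} (h : s ∈ Sg N) :
    0 ≤ s.1 ∧ s.1 ≤ N ∧ 0 ≤ s.2 ∧ s.2 ≤ N ∧ (s.1 = 0 ∨ s.2 = 0) := by
  rcases mem_union.1 h with h | h <;> obtain ⟨p, hp, rfl⟩ := mem_image.1 h <;>
    rw [mem_Icc] at hp <;> simp <;> omega

/-- a local collision of the functional `l` at distance `j` -/
def Coll (N : ℕ) (β : ℚ) (l : ℤ × ℤ → ℚ) (j : ℕ) : Prop :=
  ∃ a ∈ Sg N ×ˢ Sg N, ∃ b ∈ Sg N ×ˢ Sg N, a ≠ b ∧ l a.1 + β ^ j * l a.2 = l b.1 + β ^ j * l b.2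

lemma count_of_coll {N : ℕ} {β : ℚ} {l : ℤ × ℤ → ℚ} {j : ℕ} (h : Coll N β l j) (t : ℕ) :
    ∃ W : Finset ℚ, W.card ≤ ((Sg N).card ^ 2 - 1) ^ (j * t) ∧
      ∀ ω : ℕ → ℤ × ℤ, (∀ b, ω b ∈ Sg N) → ∑ b ∈ range (2 * j * t), l (ω b) * β ^ b ∈ W := by
  obtain ⟨a, ha, b, hb, hab, he⟩ := h
  set J := (Sg N ×ˢ Sg N).image (fun s => l s.1 + β ^ j * l s.2) with hJ
  have hJc : J.card ≤ (Sg N).card ^ 2 - 1 := by
    have h1 : J ⊆ ((Sg N ×ˢ Sg N).erase a).image (fun s => l s.1 + β ^ j * l s.2) := by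
      intro x hx
      obtain ⟨s, hs, rfl⟩ := mem_image.1 hx
      by_cases h : s = a
      · exact mem_image.2 ⟨b, mem_erase.2 ⟨hab.symm, hb⟩, by rw [h, he]⟩
      · exact mem_image.2 ⟨s, mem_erase.2 ⟨h, hs⟩, rfl⟩
    refine (card_le_card h1).trans (card_image_le.trans ?_)
    rw [card_erase_of_mem ha, card_product, sq]
  have key : ∀ (n o : ℕ), ∃ W : Finset ℚ, W.card ≤ ((Sg N).card ^ 2 - 1) ^ o ∧
      ∀ ω : ℕ → ℤ × ℤ, (∀ b, ω b ∈ Sg N) →
        ∑ x ∈ range o, (l (ω (n + x)) * β ^ (n + x) + l (ω (n + (j + x))) * β ^ (n + (j + x))) ∈ W := by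
    intro n o
    induction o with
    | zero => exact ⟨{0}, by simp, fun ω _ => by simp⟩
    | succ o ih =>
      obtain ⟨W, h1, h2⟩ := ih
      refine ⟨W + J.image (fun x => x * β ^ (n + o)), ?_, fun ω hω => ?_⟩
      · refine card_add_le.trans ?_
        rw [pow_succ]
        exact Nat.mul_le_mul h1 (card_image_le.trans hJc)
      · rw [sum_range_succ]
        refine add_mem_add (h2 ω hω) (mem_image.2 ⟨_, mem_image.2
          ⟨(ω (n + o), ω (n + (j + o))), mem_product.2 ⟨hω _, hω _⟩, rfl⟩, ?_⟩)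
        ring
  induction t with
  | zero => exact ⟨{0}, by simp, fun ω _ => by simp⟩
  | succ t ih =>
    obtain ⟨W, h1, h2⟩ := ih
    obtain ⟨W', h3, h4⟩ := key (2 * j * t) j
    refine ⟨W + W', ?_, fun ω hω => ?_⟩
    · refine card_add_le.trans ?_
      rw [mul_add, mul_one, pow_add]
      exact Nat.mul_le_mul h1 h3
    · rw [show 2 * j * (t + 1) = 2 * j * t + (j + j) by ring, sum_range_add, sum_range_add,
        ← sum_add_distrib]
      exact add_mem_add (h2 ω hω) (h4 ω hω)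

lemma sum_int (α δ : ℕ) (hδ : 0 < δ) (d : ℕ → ℤ) (B : ℕ) :
    ((∑ b ∈ range B, d b * α ^ b * δ ^ (B - b) : ℤ) : ℚ) =
      δ ^ B * ∑ b ∈ range B, (d b : ℚ) * ((α : ℚ) / δ) ^ b := by
  push_cast
  rw [mul_sum]
  refine sum_congr rfl fun b hb => ?_
  have hb' := (mem_range.1 hb).le
  have hδ' : (δ : ℚ) ≠ 0 := by positivity
  rw [pow_sub₀ _ hδ' hb', div_pow]
  field_simp

lemma digits_unique (α δ : ℕ) (hδ : 0 < δ) (hα : 0 < α) (hc : Nat.Coprime α δ) (B : ℕ) :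
    ∀ d : ℕ → ℤ, (∀ b, |d b| < α) → ∑ b ∈ range B, (d b : ℚ) * ((α : ℚ) / δ) ^ b = 0 →
      ∀ b < B, d b = 0 := by
  induction B with
  | zero => intro d _ _ b hb; omega
  | succ B ih =>
    intro d hd hs
    rw [sum_range_succ'] at hs
    have hδ' : (δ : ℚ) ≠ 0 := by positivity
    have hα' : (α : ℚ) ≠ 0 := by positivity
    have e : ∑ b ∈ range B, (d (b + 1) : ℚ) * ((α : ℚ) / δ) ^ (b + 1) =
        (α / δ) * ∑ b ∈ range B, (d (b + 1) : ℚ) * ((α : ℚ) / δ) ^ b := by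
      rw [mul_sum]; exact sum_congr rfl fun b _ => by ring
    rw [e] at hs
    have h1 := sum_int α δ hδ (fun b => d (b + 1)) B
    set m : ℤ := ∑ b ∈ range B, d (b + 1) * α ^ b * δ ^ (B - b) with hm
    have h2 : d 0 * δ ^ (B + 1) = α * (-m) := by
      have : ((d 0 * δ ^ (B + 1) : ℤ) : ℚ) = ((α * (-m) : ℤ) : ℚ) := by
        push_cast
        rw [h1]
        field_simp at hs
        linear_combination (δ : ℚ) ^ B * hs
      exact_mod_cast this
    have h3 : (α : ℤ) ∣ d 0 := by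
      have hco : IsCoprime (α : ℤ) ((δ : ℤ) ^ (B + 1)) :=
        (Nat.isCoprime_iff_coprime.2 hc).pow_right
      exact hco.dvd_of_dvd_mul_right ⟨_, h2⟩
    have h4 : d 0 = 0 := Int.eq_zero_of_abs_lt_dvd h3 (hd 0)
    rw [h4] at hs
    have h5 : ∑ b ∈ range B, (d (b + 1) : ℚ) * ((α : ℚ) / δ) ^ b = 0 := by
      simp only [Int.cast_zero, zero_mul, add_zero, mul_eq_zero, div_eq_zero_iff] at hs
      rcases hs with (hs | hs) | hs
      · exact absurd hs hα'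
      · exact absurd hs hδ'
      · exact hs
    intro b hb
    rcases b with _ | b
    · exact h4
    · exact ih (fun b => d (b + 1)) (fun b => hd _) h5 b (by omega)

lemma exists_set (N α δ : ℕ) (hδ : 0 < δ) (hN : 2 * N < α) (hc : Nat.Coprime α δ) (E : ℕ) :
    ∃ A : Finset (ℤ × ℤ),
      (A.image (fun p : ℤ × ℤ => (p.1 : ℚ) + (-1) * (p.2 : ℚ))).card = (Sg N).card ^ (2 * E) ∧
      ∀ (u v : ℚ) (j : ℕ), j ∣ E → Coll N ((α : ℚ) / δ) (fun p => u * p.1 + v * p.2) j →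
        (A.image (fun p : ℤ × ℤ => u * (p.1 : ℚ) + v * (p.2 : ℚ))).card ≤
          ((Sg N).card ^ 2 - 1) ^ E := by
  classical
  set B := 2 * E with hB
  let ext : (Fin B → ℤ × ℤ) → ℕ → ℤ × ℤ := fun ω b => if h : b < B then ω ⟨b, h⟩ else (0, 0)
  let Φ : (Fin B → ℤ × ℤ) → ℤ × ℤ := fun ω =>
    (∑ b ∈ range B, (ext ω b).1 * α ^ b * δ ^ (B - b), ∑ b ∈ range B, (ext ω b).2 * α ^ b * δ ^ (B - b))
  have hext : ∀ ω ∈ Fintype.piFinset (fun _ : Fin B => Sg N), ∀ b, ext ω b ∈ Sg N := by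
    intro ω hω b
    simp only [ext]
    split_ifs with h
    · exact Fintype.mem_piFinset.1 hω _
    · exact mem_Sg_left (p := 0) (Nat.zero_le _)
  have hΦ : ∀ (u v : ℚ) ω, u * ((Φ ω).1 : ℚ) + v * ((Φ ω).2 : ℚ) =
      δ ^ B * ∑ b ∈ range B, (u * (ext ω b).1 + v * (ext ω b).2) * ((α : ℚ) / δ) ^ b := by
    intro u v ω
    simp only [Φ]
    rw [sum_int α δ hδ (fun b => (ext ω b).1), sum_int α δ hδ (fun b => (ext ω b).2)]
    simp only [mul_sum, ← sum_add_distrib]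
    exact sum_congr rfl fun b _ => by ring
  have hδ' : (δ : ℚ) ^ B ≠ 0 := by positivity
  refine ⟨(Fintype.piFinset (fun _ : Fin B => Sg N)).image Φ, ?_, fun u v j hj h => ?_⟩
  · rw [image_image, card_image_of_injOn, Fintype.card_piFinset, prod_const, card_univ,
      Fintype.card_fin]
    intro ω hω ω' hω' he
    have h1 := hΦ 1 (-1) ω
    have h2 := hΦ 1 (-1) ω'
    simp only [Function.comp] at he
    rw [one_mul] at h1 h2
    rw [h1, h2] at he
    have h3 := mul_left_cancel₀ hδ' he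
    have h4 := digits_unique α δ hδ (by omega) hc B
      (fun b => ((ext ω b).1 - (ext ω b).2) - ((ext ω' b).1 - (ext ω' b).2)) (fun b => by
        have a1 := mem_Sg (hext ω hω b)
        have a2 := mem_Sg (hext ω' hω' b)
        rw [abs_lt]; omega) (by
        rw [← sub_eq_zero, ← sum_sub_distrib] at h3
        rw [← h3]
        exact sum_congr rfl fun b _ => by push_cast; ring)
    funext b
    have h5 := h4 b b.2
    have a1 := mem_Sg (hext ω hω b)
    have a2 := mem_Sg (hext ω' hω' b)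
    simp only [ext, b.2, dite_true, Fin.eta] at h5 a1 a2
    apply Prod.ext <;> omega
  · obtain ⟨t, rfl⟩ := hj
    obtain ⟨W, h1, h2⟩ := count_of_coll h t
    refine le_trans (card_le_card (t := W.image (fun x => (δ : ℚ) ^ B * x)) ?_)
      (card_image_le.trans h1)
    intro x hx
    obtain ⟨_, hy, rfl⟩ := mem_image.1 hx
    obtain ⟨ω, hω, rfl⟩ := mem_image.1 hy
    refine mem_image.2 ⟨_, h2 (ext ω) (hext ω hω), ?_⟩
    rw [hΦ, hB, mul_assoc]

lemma mk_coll {N : ℕ} {β : ℚ} {l : ℤ × ℤ → ℚ} {j : ℕ} {a b c d : ℤ × ℤ} (ha : a ∈ Sg N)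
    (hb : b ∈ Sg N) (hc : c ∈ Sg N) (hd : d ∈ Sg N) (hne : a ≠ c ∨ b ≠ d)
    (h : l a + β ^ j * l b = l c + β ^ j * l d) : Coll N β l j :=
  ⟨(a, b), mem_product.2 ⟨ha, hb⟩, (c, d), mem_product.2 ⟨hc, hd⟩, fun he => by
    rw [Prod.mk.injEq] at he
    rcases hne with h1 | h1
    · exact h1 he.1
    · exact h1 he.2, h⟩

lemma exists_mult {N α p q : ℕ} (hq : 0 < q) (hpq : q < p) (hN : 3 * (p * q) ≤ N)
    (h1 : 2 * N < α) (h2 : α ≤ 2 * N + 2) : ∃ s t : ℕ, s ≤ N ∧ q * t ≤ N ∧ s + p * t = α := by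
  have hp : 0 < p := by omega
  refine ⟨α - p * ((α - N) / p + 1), (α - N) / p + 1, ?_, ?_, ?_⟩
  · have := Nat.lt_mul_div_succ (α - N) hp
    omega
  · have h3 : p * ((α - N) / p) ≤ α - N := Nat.mul_div_le _ _
    have h4 : p * ((α - N) / p) ≤ N + 2 := by omega
    apply Nat.le_of_mul_le_mul_left _ hp
    have h5 : q * (p * ((α - N) / p)) ≤ q * (N + 2) := Nat.mul_le_mul_left _ h4
    have h6 : (q + 1) * N ≤ p * N := Nat.mul_le_mul_right _ hpq
    have h7 : q ≤ p * q := Nat.le_mul_of_pos_left _ hp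
    nlinarith
  · have h3 : p * ((α - N) / p) ≤ α - N := Nat.mul_div_le _ _
    have h7 : p ≤ p * q := Nat.le_mul_of_pos_right _ hq
    rw [mul_add, mul_one]
    omega

lemma coll_slope {N α δ p q : ℕ} (hp : 0 < p) (hq : 0 < q) (hN : 3 * (p * q) ≤ N)
    (h1 : 2 * N < α) (h2 : α ≤ 2 * N + 2) (hδ : 0 < δ) (hδN : δ ≤ N) (j : ℤ) (r : ℚ)
    (hr : |r| = ((α : ℚ) / δ) ^ j * (p / q)) (hr1 : r ≠ -1) :
    ∃ j' : ℕ, 1 ≤ j' ∧ Coll N ((α : ℚ) / δ) (fun s => 1 * s.1 + r * s.2) j' := by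
  have hpN : p ≤ N := by have := Nat.le_mul_of_pos_right p hq; omega
  have hqN : q ≤ N := by have := Nat.le_mul_of_pos_left q hp; omega
  have h0 : ((0 : ℤ), (0 : ℤ)) ∈ Sg N := mem_Sg_left (p := 0) (Nat.zero_le _)
  have hP := mem_Sg_left hpN
  have hQ := mem_Sg_right hqN
  have hq' : (q : ℚ) ≠ 0 := by positivity
  have hp' : (p : ℚ) ≠ 0 := by positivity
  have hδ' : (δ : ℚ) ≠ 0 := by positivity
  have hα' : (α : ℚ) ≠ 0 := by have : 0 < α := by omega
                               positivity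
  have hβ : (α : ℚ) / δ ≠ 0 := div_ne_zero hα' hδ'
  have hP0 : ((p : ℤ), (0 : ℤ)) ≠ (0, 0) := by simp; omega
  have hQ0 : ((0 : ℤ), (q : ℤ)) ≠ (0, 0) := by simp; omega
  set β := (α : ℚ) / δ with hβd
  rcases lt_trichotomy j 0 with hj | hj | hj
  · obtain ⟨n, rfl⟩ : ∃ n : ℕ, j = -(n : ℤ) := ⟨j.natAbs, by omega⟩
    rw [zpow_neg, zpow_natCast] at hr
    have hβn : β ^ n ≠ 0 := pow_ne_zero _ hβ
    refine ⟨n, by omega, ?_⟩
    rcases abs_cases r with h | h <;> rw [h.1] at hr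
    · refine mk_coll hP h0 h0 hQ (Or.inl hP0) ?_
      simp only [hr]; push_cast; field_simp; ring
    · refine mk_coll hP hQ h0 h0 (Or.inl hP0) ?_
      have : r = -((β ^ n)⁻¹ * (p / q)) := by linarith
      simp only [this]; push_cast; field_simp; ring
  · subst hj
    rw [zpow_zero, one_mul] at hr
    refine ⟨1, le_rfl, ?_⟩
    rcases abs_cases r with h | h <;> rw [h.1] at hr
    · refine mk_coll hP h0 hQ h0 (Or.inl (by simp; omega)) ?_
      simp only [hr]; push_cast; field_simp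
      ring
    · have hr' : r = -(p / q) := by linarith
      rcases lt_trichotomy p q with h3 | h3 | h3
      · obtain ⟨s, t, h4, h5, h6⟩ := exists_mult hp h3 (by rwa [mul_comm q p]) h1 h2
        refine mk_coll (mem_Sg_right h4) h0 (mem_Sg_left h5) (mem_Sg_right hδN)
          (Or.inr (by simp; omega)) ?_
        have h7 : (α : ℚ) = s + q * t := by exact_mod_cast h6.symm
        simp only [hr', hβd]; push_cast; rw [h7]; field_simp; ring
      · exfalso; apply hr1; rw [hr', h3]; field_simp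
      · obtain ⟨s, t, h4, h5, h6⟩ := exists_mult hq h3 hN h1 h2
        refine mk_coll (mem_Sg_left h4) h0 (mem_Sg_right h5) (mem_Sg_left hδN)
          (Or.inr (by simp; omega)) ?_
        have h7 : (α : ℚ) = s + p * t := by exact_mod_cast h6.symm
        simp only [hr', hβd]; push_cast; rw [h7]; field_simp; ring
  · obtain ⟨n, rfl⟩ : ∃ n : ℕ, j = (n : ℤ) := ⟨j.natAbs, by omega⟩
    rw [zpow_natCast] at hr
    refine ⟨n, by omega, ?_⟩
    rcases abs_cases r with h | h <;> rw [h.1] at hr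
    · refine mk_coll hQ h0 h0 hP (Or.inl hQ0) ?_
      simp only [hr]; push_cast; field_simp; ring
    · refine mk_coll hQ hP h0 h0 (Or.inl hQ0) ?_
      have : r = -(β ^ n * (p / q)) := by linarith
      simp only [this]; push_cast; field_simp; ring

lemma exists_scale (a b H : ℕ) (hb : 0 < b) (hab : b < a) :
    ∃ K : ℕ, 0 < K ∧ (6 * H + 4) * b ^ K ≤ a ^ K := by
  have hb' : (0 : ℚ) < b := by exact_mod_cast hb
  have h1 : (1 : ℚ) < a / b := by rw [one_lt_div hb']; exact_mod_cast hab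
  obtain ⟨K, hK⟩ := pow_unbounded_of_one_lt ((6 * H + 4 : ℕ) : ℚ) h1
  refine ⟨K, ?_, ?_⟩
  · rcases K with _ | K
    · rw [pow_zero] at hK
      have : (6 * H + 4 : ℕ) < 1 := by exact_mod_cast hK
      omega
    · omega
  · rw [div_pow, lt_div_iff₀ (by positivity)] at hK
    have : (6 * H + 4) * b ^ K < a ^ K := by exact_mod_cast hK
    exact this.le

lemma all_coll (T : ℚ) (hT : 1 < T) (C : Finset ℚ) : ∃ N α δ : ℕ, 0 < δ ∧ δ ≤ N ∧ 2 * N < α ∧
    Nat.Coprime α δ ∧ ∀ c ∈ C, ∀ i : ℤ, c * T ^ i ≠ -1 →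
      ∃ j' : ℕ, 1 ≤ j' ∧ Coll N ((α : ℚ) / δ) (fun s => 1 * s.1 + c * T ^ i * s.2) j' := by
  set a := T.num.natAbs with ha
  set b := T.den with hb
  have hb0 : 0 < b := T.den_pos
  have hTe : T = (a : ℚ) / b := by
    have h1 : 0 < T.num := Rat.num_pos.2 (by linarith)
    have h2 : ((a : ℕ) : ℤ) = T.num := by omega
    rw [← Int.cast_natCast (R := ℚ) a, h2, hb, Rat.num_div_den]
  have hb' : (0 : ℚ) < b := by exact_mod_cast hb0
  have hab : b < a := by
    rw [hTe, one_lt_div hb'] at hT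
    exact_mod_cast hT
  have ha0 : 0 < a := by omega
  have ha' : (0 : ℚ) < a := by exact_mod_cast ha0
  set H := C.sup (fun c => c.num.natAbs * c.den) + 1 with hH
  obtain ⟨K, hK0, hK⟩ := exists_scale a b H hb0 hab
  have hpos : 0 < (a * b) ^ K := by positivity
  have h1 : 6 * (H * (a * b) ^ K) + 4 ≤ a ^ (2 * K) := by
    have h2 : a ^ K * ((6 * H + 4) * b ^ K) ≤ a ^ K * a ^ K := Nat.mul_le_mul_left _ hK
    have e : a ^ K * ((6 * H + 4) * b ^ K) = 6 * (H * (a * b) ^ K) + 4 * (a * b) ^ K := by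
      rw [mul_pow]; ring
    rw [two_mul, pow_add]
    omega
  have hδ : b ^ (2 * K) ≤ (a * b) ^ K := by
    rw [pow_mul]; exact Nat.pow_le_pow_left (by nlinarith) K
  have hH1 : (a * b) ^ K ≤ H * (a * b) ^ K := Nat.le_mul_of_pos_left _ (by omega)
  have hN : 3 * (H * (a * b) ^ K) ≤ (a ^ (2 * K) - 1) / 2 := by omega
  refine ⟨(a ^ (2 * K) - 1) / 2, a ^ (2 * K), b ^ (2 * K), by positivity, by omega, by omega,
    Nat.Coprime.pow _ _ T.reduced, fun c hc i hi => ?_⟩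
  by_cases hc0 : c = 0
  · refine ⟨1, le_rfl, mk_coll (mem_Sg_right (p := 1) (by omega))
      (mem_Sg_left (p := 0) (by omega)) (mem_Sg_left (p := 0) (by omega))
      (mem_Sg_left (p := 0) (by omega)) (Or.inl (by simp)) ?_⟩
    simp [hc0]
  set u := c.num.natAbs with hu
  set v := c.den with hv
  have hu0 : 0 < u := Int.natAbs_pos.2 (Rat.num_ne_zero.2 hc0)
  have hv0 : 0 < v := c.den_pos
  have huv : u * v ≤ H := by
    have : u * v ≤ C.sup (fun c => c.num.natAbs * c.den) :=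
      Finset.le_sup (f := fun c : ℚ => c.num.natAbs * c.den) hc
    omega
  have hce : |c| = (u : ℚ) / v := by
    conv_lhs => rw [← Rat.num_div_den c]
    rw [abs_div, hu, hv, Nat.abs_cast, Nat.cast_natAbs, Int.cast_abs]
  have hT0 : 0 < T := by linarith
  have hβ : ((a ^ (2 * K) : ℕ) : ℚ) / ((b ^ (2 * K) : ℕ) : ℚ) = T ^ (2 * K : ℤ) := by
    rw [hTe]; push_cast; rw [← div_pow]; norm_cast
  have hK' : (0 : ℤ) < 2 * K := by omega
  have e1 := Int.mul_ediv_add_emod (i + K) (2 * K)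
  have e2 := Int.emod_nonneg (i + K) hK'.ne'
  have e3 := Int.emod_lt_of_pos (i + K) hK'
  set j := (i + K) / (2 * K) with hj
  set r := (i + K) % (2 * K) - K with hr
  have ei : i = 2 * K * j + r := by omega
  have habs : |c * T ^ i| = (T ^ (2 * K : ℤ)) ^ j * ((u : ℚ) / v * T ^ r) := by
    rw [abs_mul, hce, abs_of_pos (zpow_pos hT0 i), ← zpow_mul, ei, zpow_add₀ hT0.ne']
    ring
  have hle : ∀ n : ℕ, n ≤ K → 3 * (u * v * (a * b) ^ n) ≤ (a ^ (2 * K) - 1) / 2 := fun n hn => by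
    have h3 : (a * b) ^ n ≤ (a * b) ^ K := Nat.pow_le_pow_right (by positivity) hn
    have h4 : u * v * (a * b) ^ n ≤ H * (a * b) ^ K := Nat.mul_le_mul huv h3
    omega
  rcases le_total 0 r with h | h
  · obtain ⟨n, hn⟩ : ∃ n : ℕ, r = n := ⟨r.natAbs, by omega⟩
    refine coll_slope (p := u * a ^ n) (q := v * b ^ n) (by positivity) (by positivity) ?_
      (by omega) (by omega) (by positivity) (by omega) j _ ?_ hi
    · have := hle n (by omega)
      rw [mul_pow] at this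
      calc _ = 3 * (u * v * (a ^ n * b ^ n)) := by ring
        _ ≤ _ := this
    · rw [habs, hβ, hn, zpow_natCast, hTe]; push_cast; rw [div_pow]; field_simp
  · obtain ⟨n, hn⟩ : ∃ n : ℕ, r = -(n : ℤ) := ⟨r.natAbs, by omega⟩
    refine coll_slope (p := u * b ^ n) (q := v * a ^ n) (by positivity) (by positivity) ?_
      (by omega) (by omega) (by positivity) (by omega) j _ ?_ hi
    · have := hle n (by omega)
      rw [mul_pow] at this
      calc _ = 3 * (u * v * (a ^ n * b ^ n)) := by ring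
        _ ≤ _ := this
    · rw [habs, hβ, hn, zpow_neg, zpow_natCast, hTe]; push_cast; rw [div_pow]; field_simp

theorem obstruction (T : ℚ) (hT : 1 < T) (C : Finset ℚ) :
    ∃ ε : ℝ, 0 < ε ∧ ∀ S : Finset ℚ, (-1 : ℚ) ∉ S → (∀ r ∈ S, ∃ c ∈ C, ∃ i : ℤ, r = c * T ^ i) →
      ∃ A : Finset (ℤ × ℤ),
        (max ((A.image (fun p : ℤ × ℤ => (p.2 : ℚ))).card : ℝ)
            ((S.sup (fun r : ℚ =>
              (A.image (fun p : ℤ × ℤ => (p.1 : ℚ) + r * (p.2 : ℚ))).card) : ℕ) : ℝ)) ^ (1 + ε) <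
          ((A.image (fun p : ℤ × ℤ => (p.1 : ℚ) + (-1) * (p.2 : ℚ))).card : ℝ) := by
  obtain ⟨N, α, δ, h1, h2, h3, h4, h5⟩ := all_coll T hT C
  set M := (Sg N).card with hM
  have hM2 : 2 ≤ M := by
    rw [hM, Nat.succ_le_iff, one_lt_card]
    exact ⟨_, mem_Sg_left (p := 0) (by omega), _, mem_Sg_left (p := 1) (by omega), by simp⟩
  have hM4 : 4 ≤ M ^ 2 := by nlinarith
  set x : ℝ := ((M ^ 2 - 1 : ℕ) : ℝ) with hx
  have hx1 : 1 < x := by
    have : 1 < M ^ 2 - 1 := by omega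
    rw [hx]; exact_mod_cast this
  have hx2 : x < (M : ℝ) ^ 2 := by
    have : M ^ 2 - 1 < M ^ 2 := by omega
    rw [hx]; exact_mod_cast this
  have hev : ∀ᶠ ε in nhdsWithin (0 : ℝ) (Set.Ioi 0), x ^ (1 + ε) < (M : ℝ) ^ 2 := by
    have hcont : ContinuousAt (fun ε : ℝ => x ^ (1 + ε)) 0 :=
      continuousAt_const.rpow (by fun_prop) (Or.inl (by linarith))
    refine (hcont.eventually_lt continuousAt_const ?_).filter_mono nhdsWithin_le_nhds
    simpa using hx2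
  obtain ⟨ε, hε1, hε2⟩ := (hev.and self_mem_nhdsWithin).exists
  refine ⟨ε, hε2, fun S hS1 hS2 => ?_⟩
  have h6 : ∀ r ∈ S, ∃ j' : ℕ, 1 ≤ j' ∧ Coll N ((α : ℚ) / δ) (fun s => 1 * s.1 + r * s.2) j' := by
    intro r hr
    obtain ⟨c, hc, i, rfl⟩ := hS2 r hr
    exact h5 c hc i (fun h => hS1 (h ▸ hr))
  choose! J hJ1 hJ2 using h6
  set E := ∏ r ∈ S, J r with hE
  have hE0 : 0 < E := prod_pos fun r hr => hJ1 r hr
  obtain ⟨A, hA1, hA2⟩ := exists_set N α δ h1 h3 h4 E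
  refine ⟨A, ?_⟩
  have h7 := hA2 0 1 1 (one_dvd _) (mk_coll (mem_Sg_left (p := 1) (by omega))
      (mem_Sg_left (p := 0) (by omega)) (mem_Sg_left (p := 0) (by omega))
      (mem_Sg_left (p := 0) (by omega)) (Or.inl (by simp)) (by simp))
  simp only [zero_mul, zero_add, one_mul] at h7
  have h8 : S.sup (fun r : ℚ => (A.image (fun p : ℤ × ℤ => (p.1 : ℚ) + r * (p.2 : ℚ))).card) ≤
      (M ^ 2 - 1) ^ E := Finset.sup_le fun r hr => by
    have := hA2 1 r (J r) (dvd_prod_of_mem _ hr) (hJ2 r hr)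
    simpa only [one_mul] using this
  have h9 : max ((A.image (fun p : ℤ × ℤ => (p.2 : ℚ))).card : ℝ)
      ((S.sup (fun r : ℚ =>
        (A.image (fun p : ℤ × ℤ => (p.1 : ℚ) + r * (p.2 : ℚ))).card) : ℕ) : ℝ) ≤ x ^ E := by
    rw [hx]
    apply max_le
    · exact_mod_cast h7
    · exact_mod_cast h8
  have hε0 : (0 : ℝ) < ε := hε2
  rw [hA1]
  calc _ ≤ (x ^ E) ^ (1 + ε) :=
        Real.rpow_le_rpow (le_max_of_le_left (by positivity)) h9 (by linarith)
    _ = (x ^ (1 + ε)) ^ E := by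
        rw [← Real.rpow_natCast, ← Real.rpow_mul (by linarith), mul_comm,
          Real.rpow_mul (by linarith), Real.rpow_natCast]
    _ < ((M : ℝ) ^ 2) ^ E := pow_lt_pow_left₀ hε1 (by positivity) hE0.ne'
    _ = _ := by rw [← pow_mul]; push_cast; rfl

end Pool.Agent.H180Z.AK
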